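import Pool.Agent.W842.BV.Stms2

set_option autoImplicit false

namespace Pool.Agent.W333.BV

open Finset

/-- VLB. -/
theorem t_VLB : Pool.Agent.W842.BV.S_VLB := by
  intro D s a j₀ α β h0 h1
  let ψ : Fin s → ℚ × (Fin D → ℚ) := fun j => (1, fun h => (a j h : ℚ))
  have hli : LinearIndependent ℚ ψ := by
    rw [Fintype.linearIndependent_iff]
    intro c hc
    have hc1 : ∑ j, c j = 0 := by
      have := congrArg Prod.fst hc
      simpa [ψ, Prod.fst_sum] using this
    have hc2 : ∀ h, ∑ j, c j * (a j h : ℚ) = 0 := by
      intro h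
      have := congrFun (congrArg Prod.snd hc) h
      simpa [ψ, Prod.snd_sum] using this
    have h2 : ∀ i, i ≠ j₀ → c i = 0 := by
      intro i hi
      have h3 : ∑ j, c j * ((α i : ℚ) + ∑ h, (β i h : ℚ) * (a j h : ℚ)) = 0 := by
        have e : ∑ j, c j * ((α i : ℚ) + ∑ h, (β i h : ℚ) * (a j h : ℚ)) =
            (α i : ℚ) * ∑ j, c j + ∑ h, (β i h : ℚ) * ∑ j, c j * (a j h : ℚ) := by
          simp only [mul_add, Finset.sum_add_distrib, Finset.mul_sum]
          rw [Finset.sum_comm]
          congr 1
          · exact Finset.sum_congr rfl fun j _ => mul_comm _ _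
          · refine Finset.sum_congr rfl fun h _ => Finset.sum_congr rfl fun j _ => ?_
            ring
        rw [e, hc1, mul_zero, zero_add]
        exact Finset.sum_eq_zero fun h _ => by rw [hc2, mul_zero]
      rw [Finset.sum_eq_single i] at h3
      · rcases mul_eq_zero.1 h3 with h4 | h4
        · exact h4
        · exfalso
          apply h1 i hi
          exact_mod_cast h4
      · intro j _ hji
        have h4 := h0 i j hi hji.symm
        have h5 : (α i : ℚ) + ∑ h, (β i h : ℚ) * (a j h : ℚ) = 0 := by exact_mod_cast h4
        rw [h5, mul_zero]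
      · intro h
        exact absurd (Finset.mem_univ i) h
    intro i
    by_cases hi : i = j₀
    · subst hi
      rw [Finset.sum_eq_single i (fun j _ hj => h2 j hj)
        (fun h => absurd (Finset.mem_univ i) h)] at hc1
      exact hc1
    · exact h2 i hi
  have h2 := hli.fintype_card_le_finrank
  rw [Fintype.card_fin, Module.finrank_prod, Module.finrank_self, Module.finrank_fin_fun] at h2
  omega

end Pool.Agent.W333.BV
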